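import Pool.Agent.Helper85.KPA.StC

set_option autoImplicit false

namespace Pool.Agent.Helper53.KPA

open Pool.Agent.Helper85.KPA Pool.Agent.Helper5.KPA Pool.Agent.Helper52.KP MvPolynomial

private theorem ev_mul {m : ℕ} (P Q : MvPolynomial (Fin m) ℂ) (z : Fin m → ℂ) :
    ev (P * Q) z = ev P z * ev Q z := map_mul (MvPolynomial.eval z) P Q

private theorem ev_pow {m : ℕ} (P : MvPolynomial (Fin m) ℂ) (k : ℕ) (z : Fin m → ℂ) :
    ev (P ^ k) z = ev P z ^ k := map_pow (MvPolynomial.eval z) P k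

private theorem ps_zero (hM : StCHM) {m : ℕ} (w : Fin m → ℕ) (f x g : MvPolynomial (Fin m) ℂ)
    (k : ℕ) (hx : x ≠ 0) (e : f = x ^ k * g)
    (hf : ∀ (c : ℂ) z, ev f (scl w c z) = c ^ k * ev f z)
    (hX : ∀ (c : ℂ) z, ev x (scl w c z) = c ^ 1 * ev x z) :
    ∀ (c : ℂ) z, ev g (scl w c z) = c ^ 0 * ev g z := by
  have h1 := ((hM m w).1 f k).1 hf
  have h2 := ((hM m w).1 x 1).1 hX
  apply ((hM m w).1 g 0).2
  rw [pow_zero, mul_one]
  rw [e, map_mul, map_pow, h2, pow_one, mul_pow] at h1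
  have hne : (Polynomial.C x : Polynomial (MvPolynomial (Fin m) ℂ)) ^ k * Polynomial.X ^ k ≠ 0 := by
    apply mul_ne_zero
    · exact pow_ne_zero _ (by rwa [Ne, Polynomial.C_eq_zero])
    · exact pow_ne_zero _ Polynomial.X_ne_zero
  apply mul_left_cancel₀ hne
  rw [h1, map_mul, map_pow]
  ring

theorem hCNP : StCDV → StCBD → StCHM → StCNP := by
  intro hV hB hM C hG d hd i₀ hi₀ hall
  choose c hc using hall
  -- the size is bounded by the norm of one linear form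
  have h1 : ∀ j z, ‖ev (C.X j) z‖ ≤ (1 + ‖c j‖) * ‖ev (C.X i₀) z‖ := by
    intro j z
    have e : ‖ev (C.X j) z‖ ^ d = ‖c j‖ * ‖ev (C.X i₀) z‖ ^ d := by
      rw [← norm_pow, ← norm_pow, ← norm_mul]
      congr 1
      have := congrArg (MvPolynomial.eval z) (hc j)
      rwa [map_pow, map_mul, map_pow, MvPolynomial.eval_C] at this
    have hpow : ‖c j‖ ≤ (1 + ‖c j‖) ^ d := by
      have h0 : (1 : ℝ) ≤ 1 + ‖c j‖ := by linarith [norm_nonneg (c j)]
      calc ‖c j‖ ≤ 1 + ‖c j‖ := by linarith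
        _ = (1 + ‖c j‖) ^ 1 := (pow_one _).symm
        _ ≤ (1 + ‖c j‖) ^ d := pow_le_pow_right₀ h0 hd
    have h2 : ‖ev (C.X j) z‖ ^ d ≤ ((1 + ‖c j‖) * ‖ev (C.X i₀) z‖) ^ d := by
      rw [e, mul_pow]
      exact mul_le_mul_of_nonneg_right hpow (pow_nonneg (norm_nonneg _) _)
    exact le_of_pow_le_pow_left₀ hd.ne'
      (mul_nonneg (by positivity) (norm_nonneg _)) h2
  let K : ℝ := ∑ j, (1 + ‖c j‖)
  have hK : ∀ z, C.sz z ≤ K * ‖ev (C.X i₀) z‖ := by
    intro z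
    show (∑ i, ‖ev (C.X i) z‖) ≤ K * ‖ev (C.X i₀) z‖
    rw [Finset.sum_mul]
    exact Finset.sum_le_sum fun j _ => h1 j z
  have hK0 : 0 ≤ K := Finset.sum_nonneg fun j _ => by positivity
  have hsz : ∀ z, 0 ≤ C.sz z := fun z => Finset.sum_nonneg fun j _ => norm_nonneg _
  have hU : ∀ z ∈ C.U, ev (C.X i₀) z ≠ 0 := by
    intro z hz h0
    have h2 := hG.Xpos z hz
    have h3 := hK z
    rw [h0, norm_zero, mul_zero] at h3
    linarith
  -- every element of `R k` is a multiple of `X i₀ ^ k`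
  have hR : ∀ k, ∀ f ∈ C.R k, ∃ a : ℂ, f = MvPolynomial.C a * C.X i₀ ^ k := by
    intro k f hf
    obtain ⟨B, hBd⟩ := hG.bdd k f hf
    have hb : ∀ z, ‖ev f z‖ ≤ (|B| * K ^ k) * ‖ev (C.X i₀ ^ k) z‖ := by
      intro z
      calc ‖ev f z‖ ≤ B * C.sz z ^ k := hBd z
        _ ≤ |B| * C.sz z ^ k := mul_le_mul_of_nonneg_right (le_abs_self B) (pow_nonneg (hsz z) k)
        _ ≤ |B| * (K * ‖ev (C.X i₀) z‖) ^ k :=
            mul_le_mul_of_nonneg_left (pow_le_pow_left₀ (hsz z) (hK z) k) (abs_nonneg B)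
        _ = _ := by rw [mul_pow, ev_pow, norm_pow, mul_assoc]
    obtain ⟨g, hg⟩ := hV C.m f (C.X i₀ ^ k) 1 (fun _ => |B| * K ^ k) continuous_const one_ne_zero
      (pow_ne_zero _ hi₀) (fun z _ => hb z)
    have hg0 : ∀ (a : ℂ) z, ev g (scl C.w a z) = a ^ 0 * ev g z :=
      ps_zero hM C.w f (C.X i₀) g k hi₀ hg (hG.hom k f hf) (hG.hom 1 _ (hG.XR i₀))
    have hgR : g ∈ C.R 0 := by
      refine hB C hG 0 g hg0 ⟨|B| * K ^ k, fun z hz => ?_⟩
      rw [pow_zero, mul_one]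
      have h2 := hb z
      rw [hg, ev_mul, norm_mul, mul_comm ‖ev (C.X i₀ ^ k) z‖] at h2
      have h3 : 0 < ‖ev (C.X i₀ ^ k) z‖ := by
        rw [norm_pos_iff, ev_pow]
        exact pow_ne_zero _ (hU z hz)
      exact le_of_mul_le_mul_right h2 h3
    obtain ⟨a, ha⟩ := hG.cst g hgR
    exact ⟨a, by rw [hg, ha, mul_comm]⟩
  have hfr : ∀ k, (Module.finrank ℂ (C.R k) : ℝ) ≤ 1 := by
    intro k
    have hle : C.R k ≤ Submodule.span ℂ {C.X i₀ ^ k} := by
      intro f hf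
      obtain ⟨a, ha⟩ := hR k f hf
      rw [Submodule.mem_span_singleton]
      exact ⟨a, by rw [ha, MvPolynomial.smul_eq_C_mul]⟩
    have h2 : Module.finrank ℂ (C.R k) ≤ 1 :=
      le_trans (Submodule.finrank_mono hle) (by
        have h3 := finrank_span_le_card (R := ℂ) ({C.X i₀ ^ k} : Set (MvPolynomial (Fin C.m) ℂ))
        simpa using h3)
    exact_mod_cast h2
  have hm1 : C.m - 1 ≠ 0 := by
    have := hG.hm
    have := hG.hn
    omega
  have ht0 : Filter.Tendsto (fun k : ℕ => (Module.finrank ℂ (C.R k) : ℝ) / (k : ℝ) ^ (C.m - 1))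
      Filter.atTop (nhds 0) := by
    have h2 : Filter.Tendsto (fun k : ℕ => 1 / (k : ℝ) ^ (C.m - 1)) Filter.atTop (nhds 0) := by
      have h3 : Filter.Tendsto (fun k : ℕ => (k : ℝ) ^ (C.m - 1)) Filter.atTop Filter.atTop :=
        (Filter.tendsto_pow_atTop hm1).comp tendsto_natCast_atTop_atTop
      simp only [one_div]
      exact h3.inv_tendsto_atTop
    refine squeeze_zero (fun k => by positivity) (fun k => ?_) h2
    exact div_le_div_of_nonneg_right (hfr k) (by positivity)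
  have h5 := tendsto_nhds_unique ht0 hG.dim
  have h6 : (0 : ℝ) < (C.rd : ℝ) / (C.m - 1).factorial := by
    have := hG.rd0
    positivity
  linarith

end Pool.Agent.Helper53.KPA
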